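import Pool.Agent.H21.FRa

set_option autoImplicit false

namespace Pool.Agent.Results.MP_d93d44_co.NotClosed

open Matrix Polynomial Pool.Agent.H21 FR FRa

/-- closed under algebraic conjugates -/
def Closed (S : Set ℝ) : Prop :=
  ∀ θ ∈ S, ∀ z : ℂ, aeval z (minpoly ℚ θ) = 0 → ∃ μ ∈ S, z = (μ : ℝ)

noncomputable def f (s : ℝ) (h : s * s = 2) : QuadraticAlgebra ℚ 2 0 →ₐ[ℚ] ℝ :=
  (ψ (Rat.castHom ℝ) s (by simp [h])).toRatAlgHom

theorem fa (s : ℝ) (h : s * s = 2) (x : QuadraticAlgebra ℚ 2 0) : f s h x = x.re + x.im * s := rfl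

theorem conj : aeval (8 - 9 * √2 : ℝ) (minpoly ℚ (8 + 9 * √2 : ℝ)) = 0 := by
  have i : Function.Injective (f _ s2) := (injective_iff_map_eq_zero _).2 fun x h => by
    rw [fa] at h
    by_cases k : x.im = 0
    · ext <;> simp_all
    · exact absurd ((irrational_sqrt_two.ratCast_mul k).ratCast_add x.re) (by simp [h])
  have a := minpoly.algHom_eq (f _ s2) i ⟨8, 9⟩
  have b := congrArg (f (-√2) (by simp)) (minpoly.aeval ℚ (⟨8, 9⟩ : QuadraticAlgebra ℚ 2 0))
  rw [← aeval_algHom_apply, ← a, map_zero, fa, fa] at b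
  simpa [sub_eq_add_neg] using b

theorem result : ∃ (n : ℕ) (G : SimpleGraph (Fin n)) (a b : Fin n) (t : ℝ), a ≠ b ∧
    (∀ c, c ≠ a → c ≠ b → U G t a c = 0 ∧ U G t b c = 0) ∧ U G t a b ≠ 0 ∧
      ¬ (Closed {θ | 0 < (E G θ a b).re} ∧ Closed {θ | (E G θ a b).re < 0}) := by
  have s : (1.4 : ℝ) < √2 := Real.lt_sqrt_of_sq_lt (by norm_num)
  have g : γ ≠ 0 := fun e => by
    have k := γn
    rw [e, norm_zero] at k
    have : (0 : ℝ) < 1 / √2 := by positivity
    linarith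
  refine ⟨156, D.gr 156, 0, 1, τ, by decide, fun c p q => ⟨?_, ?_⟩, ?_, fun h => ?_⟩
  · simpa [p, q, U_symm _ _ c] using congrFun (ev 0 (.inl rfl)) c
  · simpa [p, q, U_symm _ _ c] using congrFun (ev 1 (.inr rfl)) c
  · have := congrFun (ev 1 (.inr rfl)) 0
    simp at this
    rwa [this]
  · have a := (dec 1 (.inr rfl)).proj 3 (inj 3) 0
    have b := (dec 1 (.inr rfl)).proj 7 (inj 7) 0
    rw [show W 1 3 (D.cell (0 : Fin 156)) = ⟨-34, 26⟩ by decide +kernel,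
      show th 3 = ⟨8, 9⟩ by decide, φa, φa] at a
    rw [show W 1 7 (D.cell (0 : Fin 156)) = ⟨-34, -26⟩ by decide +kernel,
      show th 7 = ⟨8, -9⟩ by decide, φa, φa] at b
    obtain ⟨μ, p, q⟩ := h.1 (8 + 9 * √2) (by
      have : (8 + 9 * √2 : ℝ) = (8 : ℤ) + (9 : ℤ) * √2 := by simp
      rw [Set.mem_ofPred_eq, this, a, Complex.ofReal_re]
      push_cast
      linarith) (8 - 9 * √2 : ℝ) (by
        rw [show ((8 - 9 * √2 : ℝ) : ℂ) = algebraMap ℝ ℂ (8 - 9 * √2) from rfl,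
          aeval_algebraMap_apply, conj, map_zero])
    have : μ = (8 : ℤ) + (-9 : ℤ) * √2 := by rw [← Complex.ofReal_injective q]; simp; ring
    rw [Set.mem_ofPred_eq, this, b, Complex.ofReal_re] at p
    push_cast at p
    linarith

end Pool.Agent.Results.MP_d93d44_co.NotClosed
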